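import Mathlib

/-!
# Uniform positive entropy: definitions
-/

set_option autoImplicit false

open Set Filter Topology MeasureTheory

namespace Pool.Agent.Q181.UP

section

variable {X : Type} [TopologicalSpace X]

/-- The members of the cover `{U, V} ∨ T⁻¹{U, V} ∨ ... ∨ T^{-(n-1)}{U, V}`, indexed by the words
`s` of length `n` (the letter `true` stands for `U`, the letter `false` for `V`). -/
def joinSet (T : X → X) (U V : Set X) (n : ℕ) (s : Fin n → Bool) : Set X :=
  ⋂ j : Fin n, (T^[j]) ⁻¹' (if s j then U else V)

/-- The minimal cardinality of a subcover of `{U, V} ∨ T⁻¹{U, V} ∨ ... ∨ T^{-(n-1)}{U, V}`. -/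
noncomputable def coverNumber (T : X → X) (U V : Set X) (n : ℕ) : ℕ :=
  sInf {c | ∃ W : Finset (Fin n → Bool), W.card = c ∧ (⋃ s ∈ W, joinSet T U V n s) = univ}

/-- The topological entropy of the cover `{U, V}`: the limit of `(1/n) log N`; the limit exists by
subadditivity, so that it is equal to the lower limit, by which it is defined here. -/
noncomputable def coverEnt (T : X → X) (U V : Set X) : EReal :=
  liminf (fun n : ℕ => ((Real.log (coverNumber T U V n) / n : ℝ) : EReal)) atTop

/-- Uniform positive entropy: every open cover by two sets, none of which is dense, has positive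
entropy. -/
def IsUPE (T : X → X) : Prop :=
  ∀ U V : Set X, IsOpen U → IsOpen V → U ∪ V = univ → ¬ Dense U → ¬ Dense V → 0 < coverEnt T U V

end

end Pool.Agent.Q181.UP
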