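import Pool.Agent.Q181.UP.Defs

/-!
# The subshift
-/

set_option autoImplicit false

open Set Filter Topology MeasureTheory

namespace Pool.Agent.Q181.UP

/-- Number of ones in the window `[a, b]`. -/
noncomputable def ones (x : ℤ → Fin 3) (a b : ℤ) : ℕ := ((Finset.Icc a b).filter (fun t => x t = 1)).card

/-- Consecutive twos. -/
def Cons (x : ℤ → Fin 3) (i j : ℤ) : Prop :=
  i < j ∧ x i = 2 ∧ x j = 2 ∧ ∀ t, i < t → t < j → x t ≠ 2

/-- The admissible configurations. -/
def Adm (x : ℤ → Fin 3) : Prop :=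
  ∀ i j, Cons x i j → ∀ a b, a ≤ i → j ≤ b → (j - i) * (ones x a b : ℤ) ^ 2 ≤ (b - a + 1) ^ 2

/-- The subshift. -/
abbrev Sub : Type := {x : ℤ → Fin 3 // Adm x}

lemma ones_congr {x y : ℤ → Fin 3} {a b : ℤ} (h : ∀ t, a ≤ t → t ≤ b → x t = y t) :
    ones x a b = ones y a b := by
  unfold ones
  congr 1
  refine Finset.filter_congr fun t ht => ?_
  rw [Finset.mem_Icc] at ht
  rw [h t ht.1 ht.2]

lemma ones_shift (x : ℤ → Fin 3) (a b c : ℤ) : ones (fun t => x (t + c)) a b = ones x (a + c) (b + c) := by
  unfold ones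
  refine Finset.card_bij (fun t _ => t + c) ?_ ?_ ?_
  · intro t ht
    simp only [Finset.mem_filter, Finset.mem_Icc] at ht ⊢
    exact ⟨⟨by linarith [ht.1.1], by linarith [ht.1.2]⟩, ht.2⟩
  · intro s _ t _ h
    linarith
  · intro t ht
    simp only [Finset.mem_filter, Finset.mem_Icc] at ht
    refine ⟨t - c, ?_, by ring⟩
    simp only [Finset.mem_filter, Finset.mem_Icc]
    refine ⟨⟨by linarith [ht.1.1], by linarith [ht.1.2]⟩, ?_⟩
    rw [sub_add_cancel]
    exact ht.2

lemma Adm.shift {x : ℤ → Fin 3} (h : Adm x) (c : ℤ) : Adm (fun t => x (t + c)) := by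
  intro i j hij a b ha hb
  rw [ones_shift]
  have h1 : Cons x (i + c) (j + c) := by
    refine ⟨by linarith [hij.1], hij.2.1, hij.2.2.1, ?_⟩
    intro t ht1 ht2
    have := hij.2.2.2 (t - c) (by linarith) (by linarith)
    simp only [sub_add_cancel] at this
    exact this
  have h2 := h (i + c) (j + c) h1 (a + c) (b + c) (by linarith) (by linarith)
  have e1 : j + c - (i + c) = j - i := by ring
  have e2 : b + c - (a + c) = b - a := by ring
  rw [e1, e2] at h2
  exact h2

/-- The shift on the subshift. -/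
def sh (c : ℤ) (x : Sub) : Sub := ⟨fun t => x.1 (t + c), x.2.shift c⟩

lemma continuous_sh (c : ℤ) : Continuous (sh c) := by
  refine Continuous.subtype_mk (continuous_pi fun t => ?_) _
  exact (continuous_apply (t + c)).comp continuous_subtype_val

/-- The shift homeomorphism. -/
def T : Sub ≃ₜ Sub where
  toFun := sh 1
  invFun := sh (-1)
  left_inv x := by
    apply Subtype.ext
    funext t
    simp [sh]
  right_inv x := by
    apply Subtype.ext
    funext t
    simp [sh]
  continuous_toFun := continuous_sh 1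
  continuous_invFun := continuous_sh (-1)

lemma T_iter (n : ℕ) (x : Sub) (t : ℤ) : ((T^[n]) x).1 t = x.1 (t + n) := by
  induction n generalizing t with
  | zero => simp
  | succ n ih =>
    rw [Function.iterate_succ_apply']
    change ((T^[n]) x).1 (t + 1) = _
    rw [ih]
    push_cast
    rw [show t + 1 + (n : ℤ) = t + (n + 1) by ring]

lemma isClosed_Adm : IsClosed {x : ℤ → Fin 3 | Adm x} := by
  have h : {x : ℤ → Fin 3 | Adm x} = ⋂ (i : ℤ) (j : ℤ) (a : ℤ) (b : ℤ),
      {x | Cons x i j → a ≤ i → j ≤ b → (j - i) * (ones x a b : ℤ) ^ 2 ≤ (b - a + 1) ^ 2} := by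
    ext x
    simp only [mem_ofPred_eq, mem_iInter, Adm]
    constructor
    · intro h i j a b h1 h2 h3
      exact h i j h1 a b h2 h3
    · intro h i j h1 a b h2 h3
      exact h i j a b h1 h2 h3
  rw [h]
  refine isClosed_iInter fun i => isClosed_iInter fun j => isClosed_iInter fun a =>
    isClosed_iInter fun b => ?_
  -- the condition depends on finitely many coordinates
  rw [← isOpen_compl_iff, isOpen_pi_iff]
  intro x hx
  refine ⟨Finset.Icc (min a i) (max b j), fun t => {x t}, fun t _ => ⟨isOpen_discrete _, rfl⟩, ?_⟩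
  intro y hy
  have hyx : ∀ t, min a i ≤ t → t ≤ max b j → y t = x t := by
    intro t h1 h2
    exact hy t (by simpa using ⟨by simpa using h1, by simpa using h2⟩)
  simp only [mem_compl_iff, mem_ofPred_eq] at hx ⊢
  intro hcon
  apply hx
  intro h1 h2 h3
  have h4 : Cons y i j := by
    refine ⟨h1.1, ?_, ?_, ?_⟩
    · rw [hyx i (min_le_right _ _) (le_trans h1.1.le (le_max_right _ _))]; exact h1.2.1
    · rw [hyx j (le_trans (min_le_right _ _) h1.1.le) (le_max_right _ _)]; exact h1.2.2.1
    · intro t ht1 ht2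
      rw [hyx t (le_trans (min_le_right _ _) ht1.le) (le_trans ht2.le (le_max_right _ _))]
      exact h1.2.2.2 t ht1 ht2
  have h5 := hcon h4 h2 h3
  rw [ones_congr (y := x)] at h5
  · exact h5
  · intro t ht1 ht2
    exact hyx t (le_trans (min_le_left _ _) ht1) (le_trans ht2 (le_max_left _ _))

instance : CompactSpace Sub := isCompact_iff_compactSpace.1 isClosed_Adm.isCompact

lemma adm_of_no_cons {x : ℤ → Fin 3} (h : ∀ i j, ¬ Cons x i j) : Adm x :=
  fun i j hij => absurd hij (h i j)

/-- The configuration with a single one. -/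
def single : Sub := ⟨fun t => if t = 0 then 1 else 0, adm_of_no_cons (by
  rintro i j ⟨_, h2, _⟩
  simp only at h2
  split_ifs at h2 <;> exact absurd h2 (by decide))⟩

/-- The configuration with exactly two twos, at the positions `0` and `n`. -/
def two (n : ℕ) : Sub := ⟨fun t => if t = 0 ∨ t = n then 2 else 0, by
  intro i j hij a b ha hb
  have h1 : ones (fun t : ℤ => if t = 0 ∨ t = n then (2 : Fin 3) else 0) a b = 0 := by
    unfold ones
    rw [Finset.card_eq_zero, Finset.filter_eq_empty_iff]
    intro t _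
    simp only
    split_ifs <;> decide
  rw [h1]
  simp only [Nat.cast_zero, ne_eq, OfNat.ofNat_ne_zero, not_false_eq_true, zero_pow, mul_zero]
  positivity⟩

/-- Points with consecutive twos at distance `n`. -/
def E (n : ℕ) : Set Sub := {x | ∃ i : ℤ, Cons x.1 i (i + n)}

lemma isOpen_coord (t : ℤ) (S : Set (Fin 3)) : IsOpen {x : Sub | x.1 t ∈ S} :=
  (isOpen_discrete S).preimage ((continuous_apply t).comp continuous_subtype_val)

lemma isOpen_cons (i j : ℤ) : IsOpen {x : Sub | Cons x.1 i j} := by
  have h : {x : Sub | Cons x.1 i j} = {x | i < j} ∩ ({x | x.1 i ∈ ({2} : Set (Fin 3))} ∩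
      ({x | x.1 j ∈ ({2} : Set (Fin 3))} ∩
      ⋂ t ∈ Finset.Ioo i j, {x | x.1 t ∈ ({2}ᶜ : Set (Fin 3))})) := by
    ext x
    simp only [Cons, mem_ofPred_eq, mem_inter_iff, mem_singleton_iff, mem_iInter, Finset.mem_Ioo,
      mem_compl_iff]
    constructor
    · rintro ⟨h1, h2, h3, h4⟩
      exact ⟨h1, h2, h3, fun t ht => h4 t ht.1 ht.2⟩
    · rintro ⟨h1, h2, h3, h4⟩
      exact ⟨h1, h2, h3, fun t ht1 ht2 => h4 t ⟨ht1, ht2⟩⟩
  rw [h]
  refine isOpen_const.inter ((isOpen_coord i _).inter ((isOpen_coord j _).inter ?_))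
  exact isOpen_biInter_finset fun t _ => isOpen_coord t _

lemma isOpen_E (n : ℕ) : IsOpen (E n) := by
  have : E n = ⋃ i : ℤ, {x : Sub | Cons x.1 i (i + n)} := by
    ext x; simp [E]
  rw [this]
  exact isOpen_iUnion fun i => isOpen_cons _ _

lemma E_nonempty {n : ℕ} (hn : 1 ≤ n) : (E n).Nonempty := by
  refine ⟨two n, 0, ?_, ?_, ?_, ?_⟩
  · have : (0 : ℤ) < n := by exact_mod_cast hn
    linarith
  · simp [two]
  · simp [two]
  · intro t h1 h2
    have : ¬ (t = 0 ∨ t = n) := by
      rintro (h | h)
      · omega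
      · rw [h] at h2; omega
    simp only [two, this, if_false]
    decide

lemma E_inv (n : ℕ) : T ⁻¹' E n = E n := by
  ext x
  simp only [E, mem_preimage, mem_ofPred_eq]
  constructor
  · rintro ⟨i, h1, h2, h3, h4⟩
    refine ⟨i + 1, by linarith, h2, ?_, ?_⟩
    · rw [show i + 1 + (n : ℤ) = i + n + 1 by ring]; exact h3
    · intro t ht1 ht2
      have := h4 (t - 1) (by linarith) (by linarith)
      change x.1 (t - 1 + 1) ≠ 2 at this
      rwa [sub_add_cancel] at this
  · rintro ⟨i, h1, h2, h3, h4⟩
    refine ⟨i - 1, by linarith, ?_, ?_, ?_⟩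
    · change x.1 (i - 1 + 1) = 2
      rwa [sub_add_cancel]
    · change x.1 (i - 1 + n + 1) = 2
      rwa [show i - 1 + (n : ℤ) + 1 = i + n by ring]
    · intro t ht1 ht2
      change x.1 (t + 1) ≠ 2
      exact h4 (t + 1) (by linarith) (by linarith)

section measure

variable [MeasurableSpace Sub] [BorelSpace Sub]

/-- No ergodic measure has full support. -/
theorem no_full_support (μ : Measure Sub) [IsProbabilityMeasure μ] (hμ : Ergodic T μ) :
    ∃ U : Set Sub, IsOpen U ∧ U.Nonempty ∧ μ U = 0 := by
  classical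
  by_contra hcon
  push Not at hcon
  have hinv : MeasurePreserving T μ μ := hμ.toMeasurePreserving
  have hE : ∀ n, 1 ≤ n → μ (E n) = 1 := by
    intro n hn
    have h1 := hcon (E n) (isOpen_E n) (E_nonempty hn)
    rcases hμ.toPreErgodic.measure_self_or_compl_eq_zero (isOpen_E n).measurableSet (E_inv n) with h | h
    · exact absurd h h1
    · rwa [prob_compl_eq_zero_iff (isOpen_E n).measurableSet] at h
  -- the set of points with a one at the origin
  set O : Set Sub := {x | x.1 0 ∈ ({1} : Set (Fin 3))} with hO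
  have hOopen : IsOpen O := isOpen_coord 0 _
  have hOne : O.Nonempty := ⟨single, by simp [hO, single]⟩
  have hOpos : 0 < μ.real O := by
    have h1 := hcon O hOopen hOne
    rw [measureReal_def]
    exact ENNReal.toReal_pos h1 (measure_ne_top _ _)
  -- translates
  have hOt : ∀ t : ℕ, μ.real {x : Sub | x.1 t ∈ ({1} : Set (Fin 3))} = μ.real O := by
    intro t
    have h1 := (hinv.iterate t).measure_preimage hOopen.measurableSet.nullMeasurableSet
    have h2 : (T^[t]) ⁻¹' O = {x : Sub | x.1 t ∈ ({1} : Set (Fin 3))} := by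
      ext x
      simp only [hO, mem_preimage, mem_ofPred_eq, T_iter, zero_add]
    rw [h2] at h1
    rw [measureReal_def, measureReal_def, h1]
  -- the averages
  have havg : ∀ m : ℕ, ∫ x : Sub, (ones x.1 0 m : ℝ) ∂μ = (m + 1) * μ.real O := by
    intro m
    have h1 : ∀ x : Sub, (ones x.1 0 m : ℝ) = ∑ t ∈ Finset.range (m + 1),
        {x : Sub | x.1 t ∈ ({1} : Set (Fin 3))}.indicator (fun _ => (1 : ℝ)) x := by
      intro x
      have h2 : ones x.1 0 m = ((Finset.range (m + 1)).filter (fun t : ℕ => x.1 t = 1)).card := by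
        unfold ones
        symm
        refine Finset.card_bij (fun t _ => (t : ℤ)) ?_ ?_ ?_
        · intro t ht
          simp only [Finset.mem_filter, Finset.mem_range, Finset.mem_Icc] at ht ⊢
          exact ⟨⟨by positivity, by exact_mod_cast Nat.lt_succ_iff.1 ht.1⟩, ht.2⟩
        · intro s _ t _ h
          exact_mod_cast h
        · intro t ht
          simp only [Finset.mem_filter, Finset.mem_Icc] at ht
          refine ⟨t.toNat, ?_, Int.toNat_of_nonneg ht.1.1⟩
          simp only [Finset.mem_filter, Finset.mem_range]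
          rw [Int.toNat_of_nonneg ht.1.1]
          exact ⟨by omega, ht.2⟩
      rw [h2, Finset.card_filter, Nat.cast_sum]
      refine Finset.sum_congr rfl fun t _ => ?_
      by_cases h3 : x.1 t = 1 <;> simp [Set.indicator, h3]
    simp only [h1]
    rw [integral_finsetSum]
    · have h3 : ∀ t ∈ Finset.range (m + 1), ∫ x, {x : Sub | x.1 t ∈ ({1} : Set (Fin 3))}.indicator
          (fun _ => (1 : ℝ)) x ∂μ = μ.real O := by
        intro t _
        rw [integral_indicator (isOpen_coord t _).measurableSet]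
        simp only [integral_const, smul_eq_mul, mul_one, measureReal_restrict_apply_univ]
        exact hOt t
      rw [Finset.sum_congr rfl h3]
      simp
    · intro t _
      exact (integrable_const (1 : ℝ)).indicator (isOpen_coord t _).measurableSet
  -- the bound for each n
  have hbound : ∀ n : ℕ, 1 ≤ n → n * (μ.real O) ^ 2 ≤ 4 := by
    intro n hn
    -- the part of E n visible in [-m, m]
    let Em : ℕ → Set Sub := fun m => ⋃ i ∈ Finset.Icc (-(m : ℤ)) m, {x : Sub | Cons x.1 i (i + n)}
    have hEmono : Monotone Em := by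
      intro a b hab
      refine biUnion_subset_biUnion_left fun i hi => ?_
      have hi' := Finset.mem_Icc.1 hi
      have : (a : ℤ) ≤ b := by exact_mod_cast hab
      exact Finset.mem_Icc.2 ⟨by linarith [hi'.1], by linarith [hi'.2]⟩
    have hEun : (⋃ m, Em m) = E n := by
      ext x
      simp only [Em, mem_iUnion, E, mem_ofPred_eq, Finset.mem_Icc]
      constructor
      · rintro ⟨m, i, _, hi⟩; exact ⟨i, hi⟩
      · rintro ⟨i, hi⟩
        exact ⟨i.natAbs, i, ⟨by omega, by omega⟩, hi⟩
    have hlim : Tendsto (fun m => μ (Em m)) atTop (𝓝 1) := by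
      rw [← hE n hn, ← hEun]
      exact tendsto_measure_iUnion_atTop hEmono
    have hEmm : ∀ m, MeasurableSet (Em m) := fun m =>
      Finset.measurableSet_biUnion _ fun i _ => (isOpen_cons _ _).measurableSet
    set s : ℝ := Real.sqrt n with hs
    have hnpos : (0 : ℝ) < n := by exact_mod_cast hn
    have hspos : 0 < s := Real.sqrt_pos.2 hnpos
    have hss : s * s = n := Real.mul_self_sqrt hnpos.le
    have hr : μ.real O ≤ 2 / s := by
      refine le_of_forall_pos_le_add fun δ hδ => ?_
      have hlim2 : Tendsto (fun m => μ.real (Em m)) atTop (𝓝 1) := by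
        have := (ENNReal.tendsto_toReal ENNReal.one_ne_top).comp hlim
        rw [ENNReal.toReal_one] at this
        exact this
      obtain ⟨m, hm⟩ := (hlim2.eventually (lt_mem_nhds (show 1 - δ < 1 by linarith))).exists
      have hcompl : μ.real (Em m)ᶜ ≤ δ := by
        rw [probReal_compl_eq_one_sub (hEmm m)]
        linarith
      have h1 := havg (m + n)
      have h2 : ∀ x : Sub, (ones x.1 0 ((m + n : ℕ) : ℤ) : ℝ) ≤ 2 * ((m + n : ℕ) + 1) / s +
          ((m + n : ℕ) + 1) * (Em m)ᶜ.indicator (fun _ => (1 : ℝ)) x := by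
        intro x
        by_cases hx : x ∈ Em m
        · rw [indicator_of_notMem (by simpa using hx), mul_zero, add_zero]
          simp only [Em, mem_iUnion, mem_ofPred_eq, Finset.mem_Icc] at hx
          obtain ⟨i, ⟨hi1, hi2⟩, hi3⟩ := hx
          have h3 := x.2 i (i + n) hi3 (-(m : ℤ)) ((m + n : ℕ) : ℤ) hi1 (by push_cast; linarith)
          have h4 : ones x.1 0 ((m + n : ℕ) : ℤ) ≤ ones x.1 (-(m : ℤ)) ((m + n : ℕ) : ℤ) := by
            refine Finset.card_le_card (Finset.filter_subset_filter _ ?_)
            exact Finset.Icc_subset_Icc (by omega) le_rfl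
          have h5 : (n : ℝ) * (ones x.1 (-(m : ℤ)) ((m + n : ℕ) : ℤ) : ℝ) ^ 2 ≤
              (2 * ((m + n : ℕ) + 1)) ^ 2 := by
            have h6 : (i + n - i) * (ones x.1 (-(m : ℤ)) ((m + n : ℕ) : ℤ) : ℤ) ^ 2 ≤
                (2 * ((m + n : ℕ) + 1)) ^ 2 := by
              refine h3.trans ?_
              have h7 : ((m + n : ℕ) : ℤ) - -(m : ℤ) + 1 ≤ 2 * ((m + n : ℕ) + 1) := by
                push_cast
                have : (0 : ℤ) ≤ n := by positivity
                linarith
              exact pow_le_pow_left₀ (by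
                have h8 : (0 : ℤ) ≤ ((m + n : ℕ) : ℤ) := Nat.cast_nonneg _
                have h9 : (0 : ℤ) ≤ (m : ℤ) := Nat.cast_nonneg _
                linarith) h7 2
            rw [add_sub_cancel_left] at h6
            exact_mod_cast h6
          have h8 : (ones x.1 0 ((m + n : ℕ) : ℤ) : ℝ) ≤
              (ones x.1 (-(m : ℤ)) ((m + n : ℕ) : ℤ) : ℝ) := by exact_mod_cast h4
          refine h8.trans ?_
          rw [le_div_iff₀ hspos]
          refine abs_le_of_sq_le_sq' ?_ (by positivity) |>.2
          rw [mul_pow, sq s, hss]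
          linarith
        · rw [indicator_of_mem (by simpa using hx), mul_one]
          have h3 : ones x.1 0 ((m + n : ℕ) : ℤ) ≤ (m + n) + 1 := by
            refine (Finset.card_filter_le _ _).trans ?_
            rw [Int.card_Icc]
            push_cast
            omega
          have h4 : (ones x.1 0 ((m + n : ℕ) : ℤ) : ℝ) ≤ ((m + n : ℕ) : ℝ) + 1 := by
            exact_mod_cast h3
          have h5 : 0 ≤ 2 * (((m + n : ℕ) : ℝ) + 1) / s := by positivity
          linarith
      have hint : Integrable (fun x : Sub => 2 * (((m + n : ℕ) : ℝ) + 1) / s +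
          (((m + n : ℕ) : ℝ) + 1) * (Em m)ᶜ.indicator (fun _ => (1 : ℝ)) x) μ :=
        (integrable_const _).add (((integrable_const (1 : ℝ)).indicator (hEmm m).compl).const_mul _)
      have h3 : ∫ x : Sub, (ones x.1 0 ((m + n : ℕ) : ℤ) : ℝ) ∂μ ≤
          2 * (((m + n : ℕ) : ℝ) + 1) / s + (((m + n : ℕ) : ℝ) + 1) * μ.real (Em m)ᶜ := by
        refine (integral_mono_of_nonneg (Eventually.of_forall fun x => by positivity) hint
          (Eventually.of_forall h2)).trans (le_of_eq ?_)
        rw [integral_add (integrable_const _) (((integrable_const (1 : ℝ)).indicator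
          (hEmm m).compl).const_mul _), integral_const_mul, integral_indicator (hEmm m).compl]
        simp
      rw [h1] at h3
      have h4 : (0 : ℝ) < ((m + n : ℕ) : ℝ) + 1 := by positivity
      have h5 : (((m + n : ℕ) : ℝ) + 1) * μ.real O ≤ (((m + n : ℕ) : ℝ) + 1) * (2 / s + δ) := by
        calc _ ≤ _ := h3
          _ ≤ 2 * (((m + n : ℕ) : ℝ) + 1) / s + (((m + n : ℕ) : ℝ) + 1) * δ := by gcongr
          _ = _ := by ring
      exact le_of_mul_le_mul_left h5 h4
    have h1 : μ.real O * s ≤ 2 := by rwa [le_div_iff₀ hspos] at hr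
    have h2 : 0 ≤ μ.real O * s := by positivity
    calc (n : ℝ) * μ.real O ^ 2 = (μ.real O * s) ^ 2 := by rw [mul_pow, sq s, hss]; ring
      _ ≤ 2 ^ 2 := pow_le_pow_left₀ h2 h1 2
      _ = 4 := by norm_num
  -- conclusion
  obtain ⟨n, hn⟩ := exists_nat_gt (4 / (μ.real O) ^ 2)
  have h1 : (0 : ℝ) < (μ.real O) ^ 2 := by positivity
  rw [div_lt_iff₀ h1] at hn
  have hn1 : 1 ≤ n := by
    by_contra h
    have : n = 0 := by omega
    rw [this] at hn
    norm_num at hn
  have h2 := hbound n hn1
  linarith

end measure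

end Pool.Agent.Q181.UP
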