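import Pool.Agent.Q181.UP.Sys

/-!
# The subshift has uniform positive entropy
-/

set_option autoImplicit false

open Set Filter Topology MeasureTheory

namespace Pool.Agent.Q181.UP

section point

variable (x y : ℤ → Fin 3) (m K : ℤ) (s : ℤ → Bool)

/-- The index of the block of length `2K` around `2K * j` which contains `t`. -/
def blk (t : ℤ) : ℤ := (t + K) / (2 * K)

/-- The position relative to the centre of the block. -/
def rel (t : ℤ) : ℤ := t - 2 * K * blk K t

/-- The configuration made of copies of the two words. -/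
def zed (t : ℤ) : Fin 3 :=
  if rel K t = -K then 2
  else if |rel K t| ≤ m then (if s (blk K t) then x (rel K t) else y (rel K t)) else 0

variable {x y m K s}

lemma rel_lo (hK : 0 < K) (t : ℤ) : -K ≤ rel K t := by
  unfold rel blk
  have := Int.emod_nonneg (t + K) (show (2 * K) ≠ 0 by omega)
  have h2 := Int.emod_add_mul_ediv (t + K) (2 * K)
  linarith

lemma rel_hi (hK : 0 < K) (t : ℤ) : rel K t < K := by
  unfold rel blk
  have := Int.emod_lt_of_pos (t + K) (show 0 < 2 * K by omega)
  have h2 := Int.emod_add_mul_ediv (t + K) (2 * K)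
  linarith

lemma rel_add (K t : ℤ) : t = 2 * K * blk K t + rel K t := by
  unfold rel; ring

lemma blk_eq (hK : 0 < K) {j r : ℤ} (h1 : -K ≤ r) (h2 : r < K) : blk K (2 * K * j + r) = j := by
  unfold blk
  rw [show 2 * K * j + r + K = (r + K) + (2 * K) * j by ring,
    Int.add_mul_ediv_left _ _ (by omega), Int.ediv_eq_zero_of_lt (by omega) (by omega), zero_add]

lemma rel_eq (hK : 0 < K) {j r : ℤ} (h1 : -K ≤ r) (h2 : r < K) : rel K (2 * K * j + r) = r := by
  unfold rel
  rw [blk_eq hK h1 h2]
  ring

lemma blk_mono (hK : 0 < K) {t u : ℤ} (h : t ≤ u) : blk K t ≤ blk K u := by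
  unfold blk
  exact Int.ediv_le_ediv (by omega) (by linarith)

lemma zed_word (hm : 0 ≤ m) (hK : m < K) {j r : ℤ} (hr : |r| ≤ m) :
    zed x y m K s (2 * K * j + r) = if s j then x r else y r := by
  have h := abs_le.1 hr
  have hK0 : 0 < K := by omega
  have e1 : rel K (2 * K * j + r) = r := rel_eq hK0 (by omega) (by omega)
  have e2 : blk K (2 * K * j + r) = j := blk_eq hK0 (by omega) (by omega)
  unfold zed
  rw [e1, e2, if_neg (by omega), if_pos hr]

lemma zed_marker (hK : 0 < K) (j : ℤ) : zed x y m K s (2 * K * j + -K) = 2 := by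
  unfold zed
  rw [rel_eq hK le_rfl (by omega), if_pos rfl]

/-- The number of ones in a window. -/
lemma ones_zed (hm : 0 ≤ m) (hK : m < K) (a b : ℤ) (hab : a ≤ b) :
    2 * K * (ones (zed x y m K s) a b : ℤ) ≤ (2 * m + 1) * (b - a + 4 * K) := by
  have hK0 : 0 < K := by omega
  have h1 : ones (zed x y m K s) a b ≤
      ((Finset.Icc (blk K a) (blk K b)) ×ˢ (Finset.Icc (-m) m)).card := by
    unfold ones
    refine Finset.card_le_card_of_injOn (fun t => (blk K t, rel K t)) ?_ ?_
    · intro t ht
      simp only [Finset.coe_filter, Finset.mem_Icc, mem_ofPred_eq] at ht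
      simp only [Finset.coe_product, Finset.coe_Icc, mem_prod, mem_Icc]
      refine ⟨⟨blk_mono hK0 ht.1.1, blk_mono hK0 ht.1.2⟩, ?_⟩
      have h2 := ht.2
      unfold zed at h2
      split_ifs at h2 with h3 h4 h5
      · exact absurd h2 (by decide)
      · exact abs_le.1 h4
      · exact abs_le.1 h4
      · exact absurd h2 (by decide)
    · intro t _ u _ h
      simp only [Prod.mk.injEq] at h
      rw [rel_add K t, rel_add K u, h.1, h.2]
  rw [Finset.card_product, Int.card_Icc, Int.card_Icc] at h1
  have h2 : (ones (zed x y m K s) a b : ℤ) ≤ (blk K b + 1 - blk K a) * (m + 1 - -m) := by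
    have h3 : blk K a ≤ blk K b := blk_mono hK0 hab
    have h4 : ((blk K b + 1 - blk K a).toNat * (m + 1 - -m).toNat : ℕ) =
        ((blk K b + 1 - blk K a) * (m + 1 - -m) : ℤ) := by
      push_cast
      rw [Int.toNat_of_nonneg (by omega), Int.toNat_of_nonneg (by omega)]
    rw [← h4]
    exact_mod_cast h1
  have h5 : 2 * K * (blk K b - blk K a) ≤ b - a + 2 * K := by
    have e1 := rel_add K a
    have e2 := rel_add K b
    have e3 := rel_lo hK0 b
    have e4 := rel_hi hK0 a
    nlinarith
  have h6 : 2 * K * (ones (zed x y m K s) a b : ℤ) ≤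
      2 * K * ((blk K b + 1 - blk K a) * (m + 1 - -m)) :=
    mul_le_mul_of_nonneg_left h2 (by omega)
  nlinarith

/-- long windows -/
lemma long_window (hm : 0 ≤ m) (hK : 81 * (2 * m + 1) ^ 2 ≤ K) (a b n : ℤ) (hab : a ≤ b)
    (_hn : 0 ≤ n) (hn2 : n ≤ 2 * K) (hlen : K ≤ 2 * (b - a + 1)) :
    n * (ones (zed x y m K s) a b : ℤ) ^ 2 ≤ (b - a + 1) ^ 2 := by
  have hK1 : m < K := by nlinarith
  have hK0 : 0 < K := by omega
  have h1 := ones_zed (x := x) (y := y) (s := s) hm hK1 a b hab
  set c : ℤ := (ones (zed x y m K s) a b : ℤ) with hc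
  have hc0 : 0 ≤ c := by positivity
  set L : ℤ := b - a + 1 with hL
  have h2 : 2 * K * c ≤ (2 * m + 1) * (9 * L) := by
    refine h1.trans ?_
    refine mul_le_mul_of_nonneg_left ?_ (by omega)
    omega
  have h3 : (2 * K * c) ^ 2 ≤ ((2 * m + 1) * (9 * L)) ^ 2 :=
    pow_le_pow_left₀ (by positivity) h2 2
  have h4 : (2 * K) ^ 2 * (n * c ^ 2) ≤ (2 * K) ^ 2 * L ^ 2 := by
    calc (2 * K) ^ 2 * (n * c ^ 2) = n * (2 * K * c) ^ 2 := by ring
      _ ≤ (2 * K) * ((2 * m + 1) * (9 * L)) ^ 2 := by
          refine mul_le_mul hn2 h3 (by positivity) (by omega)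
      _ = (2 * K) * L ^ 2 * (81 * (2 * m + 1) ^ 2) := by ring
      _ ≤ (2 * K) * L ^ 2 * K := mul_le_mul_of_nonneg_left hK (by positivity)
      _ ≤ (2 * K) ^ 2 * L ^ 2 := by nlinarith [sq_nonneg L, mul_pos hK0 hK0]
  exact le_of_mul_le_mul_left h4 (by positivity)

/-- The configuration is admissible. -/
lemma zed_adm (hx : Adm x) (hy : Adm y) (hm : 0 ≤ m) (hK : 81 * (2 * m + 1) ^ 2 ≤ K) :
    Adm (zed x y m K s) := by
  have hmK : 81 * (2 * m + 1) ≤ K := by nlinarith
  have hK1 : m < K := by omega
  have hK0 : 0 < K := by omega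
  intro i j hij a b ha hb
  obtain ⟨hlt, hi, hj, hno⟩ := hij
  -- values of twos
  have htwo : ∀ t, zed x y m K s t = 2 → rel K t = -K ∨ |rel K t| ≤ m := by
    intro t ht
    unfold zed at ht
    split_ifs at ht with h1 h2 h3
    · exact Or.inl h1
    · exact Or.inr h2
    · exact Or.inr h2
    · exact absurd ht (by decide)
  -- bound of the distance
  have hdist : j - i ≤ 2 * K := by
    by_contra hcon
    have h1 := rel_add K i
    have h2 := rel_lo hK0 i
    have h3 := rel_hi hK0 i
    -- the marker of the next block is strictly between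
    have h4 := zed_marker (x := x) (y := y) (m := m) (s := s) hK0 (blk K i + 1)
    refine hno _ ?_ ?_ h4
    · nlinarith
    · nlinarith
  by_cases hlen : K ≤ 2 * (b - a + 1)
  · exact long_window hm hK a b (j - i) (by omega) (by omega) hdist hlen
  · -- short window: everything is in one block, away from the marker
    have hi2 := htwo i hi
    have hj2 := htwo j hj
    have ri := rel_add K i
    have rj := rel_add K j
    have li := rel_lo hK0 i
    have ui := rel_hi hK0 i
    have lj := rel_lo hK0 j
    have uj := rel_hi hK0 j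
    have hbl : blk K i = blk K j := by
      have h1 := blk_mono hK0 hlt.le
      by_contra hne
      have h2 : blk K i + 1 ≤ blk K j := by omega
      have h3 : 2 * K * (blk K i + 1) ≤ 2 * K * blk K j := mul_le_mul_of_nonneg_left h2 (by omega)
      have h5 : 2 * K + rel K j - rel K i ≤ j - i := by nlinarith
      rcases hi2 with h | h <;> rcases hj2 with h' | h'
      · rw [h, h'] at h5; omega
      · have := abs_le.1 h'; rw [h] at h5; omega
      · have := abs_le.1 h; rw [h'] at h5; omega
      · have := abs_le.1 h; have := abs_le.1 h'; omega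
    have hdif : j - i = rel K j - rel K i := by
      rw [hbl] at ri
      linarith
    have hi3 : |rel K i| ≤ m := by
      rcases hi2 with h | h
      · exfalso
        rcases hj2 with h' | h'
        · omega
        · have := abs_le.1 h'; omega
      · exact h
    have hj3 : |rel K j| ≤ m := by
      rcases hj2 with h | h
      · exfalso
        have := abs_le.1 hi3; omega
      · exact h
    have ai := abs_le.1 hi3
    have aj := abs_le.1 hj3
    set J := blk K i with hJ
    -- the word in this block
    obtain ⟨w, hw, hwa⟩ : ∃ w : ℤ → Fin 3, (∀ r, |r| ≤ m → zed x y m K s (2 * K * J + r) = w r) ∧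
        Adm w := by
      by_cases hs : s J
      · refine ⟨x, fun r hr => ?_, hx⟩
        rw [zed_word hm hK1 hr, if_pos hs]
      · refine ⟨y, fun r hr => ?_, hy⟩
        rw [zed_word hm hK1 hr, if_neg hs]
    have hcons : Cons w (rel K i) (rel K j) := by
      refine ⟨by omega, ?_, ?_, ?_⟩
      · rw [← hw _ hi3, ← ri]; exact hi
      · rw [← hw _ hj3, hbl, ← rj]; exact hj
      · intro t ht1 ht2
        have ht : |t| ≤ m := abs_le.2 ⟨by omega, by omega⟩
        rw [← hw t ht]
        apply hno
        · linarith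
        · rw [rj, ← hbl]; linarith
    -- the window relative to the block
    have hfin := hwa _ _ hcons (a - 2 * K * J) (b - 2 * K * J) (by linarith)
      (by rw [hbl]; linarith)
    have hones : ones (zed x y m K s) a b ≤ ones w (a - 2 * K * J) (b - 2 * K * J) := by
      unfold ones
      refine Finset.card_le_card_of_injOn (fun t => t - 2 * K * J) ?_ ?_
      · intro t ht
        simp only [Finset.coe_filter, Finset.mem_Icc, mem_ofPred_eq] at ht ⊢
        refine ⟨⟨by linarith [ht.1.1], by linarith [ht.1.2]⟩, ?_⟩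
        -- t is in the block
        have h6 : -K ≤ t - 2 * K * J := by
          have : i - t ≤ b - a := by linarith [ht.1.1, hb, hlt]
          linarith
        have h7 : t - 2 * K * J < K := by
          have : t - j ≤ b - a := by linarith [ht.1.2, ha, hlt]
          rw [hbl]
          linarith
        have e1 : t = 2 * K * J + (t - 2 * K * J) := by ring
        have e2 : rel K t = t - 2 * K * J := by
          conv_lhs => rw [e1]
          exact rel_eq hK0 h6 h7
        have h8 : |t - 2 * K * J| ≤ m := by
          have h9 := ht.2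
          unfold zed at h9
          rw [e2] at h9
          split_ifs at h9 with c1 c2 c3
          · exact absurd h9 (by decide)
          · exact c2
          · exact c2
          · exact absurd h9 (by decide)
        rw [← hw _ h8, ← e1]
        exact ht.2
      · intro t _ u _ h
        simp only at h
        linarith
    have hones' : (ones (zed x y m K s) a b : ℤ) ≤ (ones w (a - 2 * K * J) (b - 2 * K * J) : ℤ) := by
      exact_mod_cast hones
    have e3 : b - 2 * K * J - (a - 2 * K * J) = b - a := by ring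
    rw [e3, ← hdif] at hfin
    refine le_trans ?_ hfin
    refine mul_le_mul_of_nonneg_left ?_ (by omega)
    exact pow_le_pow_left₀ (by positivity) hones' 2

end point

/-- A set which is not dense misses a cylinder around a point. -/
lemma exists_word_avoid {U : Set Sub} (hU : ¬ Dense U) :
    ∃ (x : Sub) (m : ℕ), ∀ y : Sub, (∀ t : ℤ, |t| ≤ m → y.1 t = x.1 t) → y ∉ U := by
  rw [Dense] at hU
  push Not at hU
  obtain ⟨x, hx⟩ := hU
  have h1 : (closure U)ᶜ ∈ 𝓝 x := isClosed_closure.isOpen_compl.mem_nhds hx
  rw [nhds_subtype_eq_comap, mem_comap] at h1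
  obtain ⟨V, hV1, hV2⟩ := h1
  rw [mem_nhds_iff] at hV1
  obtain ⟨W, hW1, hW2, hW3⟩ := hV1
  rw [isOpen_pi_iff] at hW2
  obtain ⟨I, u, hu1, hu2⟩ := hW2 x.1 hW3
  refine ⟨x, I.sup Int.natAbs, fun y hy hyU => ?_⟩
  have h2 : y.1 ∈ W := by
    apply hu2
    intro i hi
    have h3 : i.natAbs ≤ I.sup Int.natAbs := Finset.le_sup (f := Int.natAbs) hi
    have h4 : |i| ≤ ((I.sup Int.natAbs : ℕ) : ℤ) := by
      rw [Int.abs_eq_natAbs]; exact_mod_cast h3
    change y.1 i ∈ u i
    rw [hy i h4]
    exact (hu1 i hi).2
  exact hV2 (hW1 h2) (subset_closure hyU)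

/-- Uniform positive entropy. -/
theorem upe : IsUPE T := by
  classical
  intro U V hU hV hUV hdU hdV
  obtain ⟨x, m1, hx⟩ := exists_word_avoid hdU
  obtain ⟨y, m2, hy⟩ := exists_word_avoid hdV
  set m : ℤ := ((max m1 m2 : ℕ) : ℤ) with hmdef
  have hm : 0 ≤ m := by positivity
  set K : ℤ := 81 * (2 * m + 1) ^ 2 with hKdef
  have hmK : m < K := by nlinarith
  have hK0 : 0 < K := by omega
  -- the points
  let z : (ℤ → Bool) → Sub := fun s => ⟨zed x.1 y.1 m K s, zed_adm x.2 y.2 hm le_rfl⟩
  obtain ⟨k, hk⟩ : ∃ k : ℕ, (k : ℤ) = 2 * K := ⟨(2 * K).toNat, Int.toNat_of_nonneg (by omega)⟩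
  have hkpos : 0 < k := by
    have : (0 : ℤ) < k := by rw [hk]; omega
    exact_mod_cast this
  have hz1 : ∀ (s : ℤ → Bool) (j : ℕ), s j = true → (T^[k * j]) (z s) ∉ U := by
    intro s j hs
    apply hx
    intro t ht
    rw [T_iter]
    push_cast
    rw [hk, add_comm]
    change zed x.1 y.1 m K s (2 * K * j + t) = _
    have ht' : |t| ≤ m := by
      refine ht.trans ?_
      rw [hmdef]; exact_mod_cast le_max_left _ _
    rw [zed_word hm hmK ht', if_pos hs]
  have hz2 : ∀ (s : ℤ → Bool) (j : ℕ), s j = false → (T^[k * j]) (z s) ∉ V := by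
    intro s j hs
    apply hy
    intro t ht
    rw [T_iter]
    push_cast
    rw [hk, add_comm]
    change zed x.1 y.1 m K s (2 * K * j + t) = _
    have ht' : |t| ≤ m := by
      refine ht.trans ?_
      rw [hmdef]; exact_mod_cast le_max_right _ _
    rw [zed_word hm hmK ht', if_neg (by rw [hs]; decide)]
  -- lower bound for the covering number
  have hcov : ∀ n : ℕ, 2 ^ (n / k) ≤ coverNumber T U V n := by
    intro n
    unfold coverNumber
    have hne : {c | ∃ W : Finset (Fin n → Bool), W.card = c ∧
        (⋃ s ∈ W, joinSet T U V n s) = univ}.Nonempty := by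
      refine ⟨_, Finset.univ, rfl, ?_⟩
      ext p
      simp only [Finset.mem_univ, iUnion_true, mem_iUnion, mem_univ, iff_true]
      refine ⟨fun j => decide ((T^[(j : ℕ)]) p ∈ U), ?_⟩
      unfold joinSet
      rw [mem_iInter]
      intro j
      simp only [mem_preimage]
      by_cases h : (T^[(j : ℕ)]) p ∈ U
      · simp [h]
      · have h2 : (T^[(j : ℕ)]) p ∈ U ∪ V := by rw [hUV]; trivial
        simp [h, h2.resolve_left h]
    obtain ⟨W, hW1, hW2⟩ := Nat.sInf_mem hne
    rw [← hW1]
    -- each word gives an element of W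
    let ext : (Fin (n / k) → Bool) → ℤ → Bool := fun s t =>
      if h : 0 ≤ t ∧ t.toNat < n / k then s ⟨t.toNat, h.2⟩ else false
    have hext : ∀ (s : Fin (n / k) → Bool) (j : Fin (n / k)), ext s ((j : ℕ) : ℤ) = s j := by
      intro s j
      simp only [ext]
      rw [dif_pos ⟨by positivity, by simp⟩]
      congr 1
    have h1 : ∀ s : Fin (n / k) → Bool, ∃ w ∈ W, z (ext s) ∈ joinSet T U V n w := by
      intro s
      have : z (ext s) ∈ ⋃ s ∈ W, joinSet T U V n s := by rw [hW2]; trivial
      simp only [mem_iUnion] at this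
      obtain ⟨w, hw, h⟩ := this
      exact ⟨w, hw, h⟩
    choose g hg1 hg2 using h1
    have hlt : ∀ j : Fin (n / k), k * (j : ℕ) < n := by
      intro j
      have h2 := j.2
      have h3 : k * (n / k) ≤ n := Nat.mul_div_le n k
      have h4 : k * ((j : ℕ) + 1) ≤ k * (n / k) := Nat.mul_le_mul_left k h2
      have h5 : k * ((j : ℕ) + 1) = k * j + k := by ring
      omega
    have hval : ∀ (s : Fin (n / k) → Bool) (j : Fin (n / k)),
        g s ⟨k * (j : ℕ), hlt j⟩ = !(s j) := by
      intro s j
      have h2 := hg2 s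
      unfold joinSet at h2
      rw [mem_iInter] at h2
      have h3 := h2 ⟨k * (j : ℕ), hlt j⟩
      simp only [mem_preimage] at h3
      rcases hsj : s j with _ | _
      · have h4 := hz2 (ext s) j (by rw [hext]; exact hsj)
        by_contra hcon
        have h5 : g s ⟨k * (j : ℕ), hlt j⟩ = false := by simpa using hcon
        rw [h5] at h3
        simp only [Bool.false_eq_true, if_false] at h3
        exact h4 h3
      · have h4 := hz1 (ext s) j (by rw [hext]; exact hsj)
        by_contra hcon
        have h5 : g s ⟨k * (j : ℕ), hlt j⟩ = true := by simpa using hcon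
        rw [h5] at h3
        simp only [if_true] at h3
        exact h4 h3
    have hinj : Function.Injective g := by
      intro s s' h
      funext j
      have e1 := hval s j
      have e2 := hval s' j
      rw [h, e2] at e1
      revert e1
      cases s j <;> cases s' j <;> simp
    have h6 := Finset.card_le_card_of_injOn (s := Finset.univ) (t := W) g (fun s _ => hg1 s)
      hinj.injOn
    rw [Finset.card_univ, Fintype.card_fun, Fintype.card_bool, Fintype.card_fin] at h6
    exact h6
  -- conclusion
  unfold coverEnt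
  have hpos : (0 : EReal) < ((Real.log 2 / (2 * k) : ℝ) : EReal) := by
    have : 0 < Real.log 2 / (2 * (k : ℝ)) := by
      have : 0 < Real.log 2 := Real.log_pos (by norm_num)
      positivity
    exact_mod_cast this
  refine lt_of_lt_of_le hpos ?_
  refine le_liminf_of_le (by isBoundedDefault) ?_
  filter_upwards [eventually_ge_atTop k] with n hn
  refine EReal.coe_le_coe_iff.2 ?_
  have hnpos : (0 : ℝ) < n := by exact_mod_cast (by omega : 0 < n)
  have hkr : (0 : ℝ) < k := by exact_mod_cast hkpos
  have hl2 : 0 < Real.log 2 := Real.log_pos (by norm_num)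
  have h1 : ((n / k : ℕ) : ℝ) * Real.log 2 ≤ Real.log (coverNumber T U V n) := by
    rw [← Real.log_pow]
    refine Real.log_le_log (by positivity) ?_
    exact_mod_cast hcov n
  have h2 : (n : ℝ) / (2 * k) ≤ ((n / k : ℕ) : ℝ) := by
    have h3 : n < k * (n / k + 1) := Nat.lt_mul_div_succ n hkpos
    have h4 : 1 ≤ n / k := (Nat.one_le_div_iff hkpos).2 hn
    have h5 : n ≤ 2 * k * (n / k) := by nlinarith
    rw [div_le_iff₀ (by positivity)]
    have h6 : (n : ℝ) ≤ ((2 * k * (n / k) : ℕ) : ℝ) := by exact_mod_cast h5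
    push_cast at h6
    linarith
  rw [div_le_div_iff₀ (by positivity) hnpos]
  calc Real.log 2 * n = (n / (2 * k) * Real.log 2) * (2 * k) := by field_simp
    _ ≤ (((n / k : ℕ) : ℝ) * Real.log 2) * (2 * k) := by gcongr
    _ ≤ Real.log (coverNumber T U V n) * (2 * k) := by gcongr

end Pool.Agent.Q181.UP
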